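import Pool.Agent.ZOL.FOSide
import Pool.Agent.ZOL.Assembly

/-!
Problem MP_1bef6e_lc. Order-invariant first-order logic has a zero-one law: for every finite set
`C` of colours and every order-invariant first-order sentence `φ` over `{E, <} ∪ {P_c : c ∈ C}`,
the fraction `μ_n(φ)` of the coloured graphs on `n` labelled vertices which satisfy `φ` converges
to `0` or to `1`. The definitions are in `Pool.Agent.ZOL.Logic`.
-/

set_option autoImplicit false

namespace Pool.Agent.Results.MP_1bef6e_lc.ZeroOneLaw

open ZOL Filter

/-- The zero-one law for order-invariant first-order logic. -/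
theorem result (C : Type) [Finite C] (φ : (sig C).Sentence) (hφ : OrderInvariant φ) :
    Tendsto (mu φ) atTop (nhds 0) ∨ Tendsto (mu φ) atTop (nhds 1) := by
  classical
  have := Fintype.ofFinite C
  exact zero_one_of_main (main_all (Option C)) hφ

end Pool.Agent.Results.MP_1bef6e_lc.ZeroOneLaw
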